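import Mathlib

/-!
# The two-phase overdetermined problem of Serrin type: definitions

`-div (σ ∇u) = 1` in `Ω`, `u = 0` on `∂Ω`, `∂_n u = c` on `∂Ω`, where `σ = σc` in the core `D` and
`σ = 1` in `Ω \ D`.
-/

open MeasureTheory Set Filter Topology
open scoped ContDiff RealInnerProductSpace

namespace Pool.Agent.Q61.TP

noncomputable section

/-- Euclidean space `ℝ^N`. -/
abbrev Sp (N : ℕ) := EuclideanSpace ℝ (Fin N)

variable {N : ℕ}

/-- `n` is the outward unit normal of `Ω` at the boundary point `x`: near `x` the set `Ω` is given by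
`ρ < 0` with a smooth function `ρ` with `ρ x = 0`, `∇ρ x ≠ 0`, and `n = ∇ρ x / |∇ρ x|`. -/
def IsOutwardNormal (Ω : Set (Sp N)) (x n : Sp N) : Prop :=
  ∃ ρ : Sp N → ℝ, ContDiff ℝ ∞ ρ ∧ ρ x = 0 ∧ gradient ρ x ≠ 0 ∧
    n = ‖gradient ρ x‖⁻¹ • gradient ρ x ∧ ∀ᶠ y in 𝓝 x, (y ∈ Ω ↔ ρ y < 0)

/-- Domains: bounded connected open sets with smooth boundary. -/
structure IsDomain (Ω : Set (Sp N)) : Prop where
  bounded : Bornology.IsBounded Ω
  connected : IsConnected Ω
  isOpen : IsOpen Ω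
  smooth : ∀ x ∈ frontier Ω, ∃ n, IsOutwardNormal Ω x n

/-- The coefficient: `σc` in the core `D` and `1` elsewhere. -/
def coef (σc : ℝ) (D : Set (Sp N)) (x : Sp N) : ℝ := by
  classical
  exact if x ∈ D then σc else 1

/-- `u` solves `-div (σ ∇u) = 1` in `Ω` (weakly), `u = 0` on `∂Ω`, and `∂_n u = c` on `∂Ω`. The
function `u` is defined on the whole space, Lipschitz and zero outside `Ω` (in particular `u` is in
`H^1_0(Ω)`), `gradient u` is its gradient, which exists almost everywhere, and near each boundary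
point `u` is smooth up to the boundary: it agrees in the closure of `Ω` with a smooth function `v`,
the normal derivative of which is `c`. -/
structure Solves (σc : ℝ) (D Ω : Set (Sp N)) (c : ℝ) (u : Sp N → ℝ) : Prop where
  lipschitz : ∃ L, LipschitzWith L u
  zero : ∀ x, x ∉ Ω → u x = 0
  weak : ∀ φ : Sp N → ℝ, ContDiff ℝ ∞ φ → HasCompactSupport φ → tsupport φ ⊆ Ω →
    ∫ x in Ω, coef σc D x * ⟪gradient u x, gradient φ x⟫ = ∫ x in Ω, φ x
  neumann : ∀ x ∈ frontier Ω, ∃ (n : Sp N) (V : Set (Sp N)) (v : Sp N → ℝ),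
    IsOutwardNormal Ω x n ∧ IsOpen V ∧ x ∈ V ∧ ContDiffOn ℝ ∞ v V ∧
      (∀ y ∈ V, y ∈ closure Ω → u y = v y) ∧ fderiv ℝ v x n = c

/-- The pair `(D, Ω)` is a solution of the overdetermined problem. -/
def IsSolution (σc : ℝ) (D Ω : Set (Sp N)) : Prop :=
  IsDomain D ∧ IsDomain Ω ∧ closure D ⊆ Ω ∧ ∃ (c : ℝ) (u : Sp N → ℝ), Solves σc D Ω c u

end

end Pool.Agent.Q61.TP
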