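import Mathlib
import Pool.Agent.Q61.TP.Def

/-!
# Integration by parts for a vector field on an open set
-/

open MeasureTheory Set Filter Topology
open scoped ContDiff RealInnerProductSpace

namespace Pool.Agent.Q61.TP

variable {N : ℕ}

/-- Integration by parts. -/
theorem ibp {U : Set (Sp N)} {φ : Sp N → ℝ} (hφ : ContDiff ℝ 1 φ)
    (hc : HasCompactSupport φ) (hs : tsupport φ ⊆ U) {A : Sp N → Sp N}
    {A' : Sp N → (Sp N →L[ℝ] Sp N)} (hA : ∀ x ∈ U, HasFDerivAt A (A' x) x)
    (hA' : ContinuousOn A' U) {d : ℝ}
    (hdiv : ∀ x ∈ U, ∑ i, (A' x (EuclideanSpace.single i 1)) i = d) :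
    ∫ x, fderiv ℝ φ x (A x) = -(d * ∫ x, φ x) := by
  have hφ0 : Continuous φ := hφ.continuous
  have hφd : Continuous (fderiv ℝ φ) := hφ.continuous_fderiv one_ne_zero
  have hAc : ContinuousOn A U := fun x hx => (hA x hx).continuousAt.continuousWithinAt
  have hAi : ∀ i, ContinuousOn (fun x => A x i) (tsupport φ) := by
    intro i
    have h1 : ContinuousOn (fun x => (EuclideanSpace.proj i : Sp N →L[ℝ] ℝ) (A x)) U :=
      (EuclideanSpace.proj i : Sp N →L[ℝ] ℝ).continuous.comp_continuousOn hAc
    exact h1.mono hs
  have hA'i : ∀ i, ContinuousOn (fun x => (A' x (EuclideanSpace.single i 1)) i) (tsupport φ) := by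
    intro i
    have h1 : ContinuousOn (fun x => A' x (EuclideanSpace.single i 1)) U :=
      hA'.clm_apply continuousOn_const
    have h2 : ContinuousOn (fun x => (EuclideanSpace.proj i : Sp N →L[ℝ] ℝ)
        (A' x (EuclideanSpace.single i 1))) U :=
      (EuclideanSpace.proj i : Sp N →L[ℝ] ℝ).continuous.comp_continuousOn h1
    exact h2.mono hs
  have hint : ∀ f : Sp N → ℝ, ContinuousOn f (tsupport φ) → (∀ x, x ∉ tsupport φ → f x = 0) →
      Integrable f := by
    intro f hf h0
    have h1 : IntegrableOn f (tsupport φ) := hf.integrableOn_compact hc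
    exact (integrableOn_iff_integrable_of_support_subset (fun x hx => by
      by_contra h
      exact hx (h0 x h))).1 h1
  have hφout : ∀ x, x ∉ tsupport φ → φ x = 0 := fun x hx => image_eq_zero_of_notMem_tsupport hx
  have hφdout : ∀ x, x ∉ tsupport φ → fderiv ℝ φ x = 0 := by
    intro x hx
    by_contra h
    exact hx (support_fderiv_subset ℝ (by simpa using h))
  have key : ∀ i : Fin N, ∫ x, A x i * fderiv ℝ φ x (EuclideanSpace.single i 1) =
      -∫ x, (A' x (EuclideanSpace.single i 1)) i * φ x := by
    intro i
    have h := integral_bilinear_hasFDerivAt_right_eq_neg_left_of_integrable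
      (μ := (volume : Measure (Sp N))) (f := fun x => A x i)
      (f' := fun x => (EuclideanSpace.proj i : Sp N →L[ℝ] ℝ).comp (A' x))
      (g := φ) (g' := fun x => fderiv ℝ φ x) (v := EuclideanSpace.single i (1:ℝ))
      (B := ContinuousLinearMap.mul ℝ ℝ) ?_ ?_ ?_ ?_ ?_
    · simpa using h
    · refine hint _ ?_ ?_
      · exact (hA'i i).mul hφ0.continuousOn
      · intro x hx
        simp [hφout x hx]
    · refine hint _ ?_ ?_
      · exact (hAi i).mul (hφd.clm_apply continuous_const).continuousOn
      · intro x hx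
        simp [hφdout x hx]
    · refine hint _ ?_ ?_
      · exact (hAi i).mul hφ0.continuousOn
      · intro x hx
        simp [hφout x hx]
    · intro x hx
      exact (EuclideanSpace.proj i : Sp N →L[ℝ] ℝ).hasFDerivAt.comp x (hA x (hs hx))
    · intro x _
      exact (hφ.differentiable one_ne_zero x).hasFDerivAt
  have hexp : ∀ x, fderiv ℝ φ x (A x) =
      ∑ i, A x i * fderiv ℝ φ x (EuclideanSpace.single i 1) := by
    intro x
    have h1 : A x = ∑ i, A x i • (EuclideanSpace.single i (1:ℝ) : Sp N) := by
      ext j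
      simp [Finset.sum_apply, Pi.single_apply]
    conv_lhs => rw [h1]
    simp only [map_sum, map_smul, smul_eq_mul]
  calc ∫ x, fderiv ℝ φ x (A x) = ∫ x, ∑ i, A x i * fderiv ℝ φ x (EuclideanSpace.single i 1) := by
        simp only [hexp]
    _ = ∑ i, ∫ x, A x i * fderiv ℝ φ x (EuclideanSpace.single i 1) := by
        refine integral_finsetSum _ fun i _ => hint _ ?_ ?_
        · exact (hAi i).mul (hφd.clm_apply continuous_const).continuousOn
        · intro x hx
          simp [hφdout x hx]
    _ = ∑ i, -∫ x, (A' x (EuclideanSpace.single i 1)) i * φ x := by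
        simp only [key]
    _ = -∫ x, ∑ i, (A' x (EuclideanSpace.single i 1)) i * φ x := by
        rw [integral_finsetSum, Finset.sum_neg_distrib]
        intro i _
        refine hint _ ((hA'i i).mul hφ0.continuousOn) ?_
        intro x hx
        simp [hφout x hx]
    _ = -∫ x, d * φ x := by
        congr 1
        refine integral_congr_ae (Eventually.of_forall fun x => ?_)
        show ∑ i, (A' x (EuclideanSpace.single i 1)) i * φ x = d * φ x
        by_cases hx : x ∈ tsupport φ
        · rw [← Finset.sum_mul, hdiv x (hs hx)]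
        · simp [hφout x hx]
    _ = -(d * ∫ x, φ x) := by rw [integral_const_mul]

end Pool.Agent.Q61.TP
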