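import Mathlib
import Pool.Agent.Q61.TP.A

/-!
# The radial vector field `(K |x|^(-N) - 1/N) x` of divergence `-1`
-/

open MeasureTheory Set Filter Topology
open scoped ContDiff RealInnerProductSpace

namespace Pool.Agent.Q61.TP

variable {N : ℕ}

/-- `q(s) = K s^(-N) - 1/N`. -/
noncomputable def q (N : ℕ) (K s : ℝ) : ℝ := K * (s ^ N)⁻¹ - 1 / N

theorem hasFDerivAt_norm' {x : Sp N} (hx : x ≠ 0) :
    HasFDerivAt (fun y : Sp N => ‖y‖) (‖x‖⁻¹ • innerSL ℝ x) x := by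
  have h1 : HasFDerivAt (fun y : Sp N => ‖y‖ ^ 2) (2 • innerSL ℝ x) x :=
    (hasStrictFDerivAt_norm_sq x).hasFDerivAt
  have hpos : 0 < ‖x‖ := norm_pos_iff.2 hx
  have h2 := h1.sqrt (by positivity)
  have h3 : (fun y : Sp N => √(‖y‖ ^ 2)) = fun y => ‖y‖ := by
    funext y
    exact Real.sqrt_sq (norm_nonneg y)
  rw [h3] at h2
  refine h2.congr_fderiv ?_
  rw [Real.sqrt_sq hpos.le]
  ext v
  simp only [smul_apply, smul_eq_mul, nsmul_eq_mul]
  field_simp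
  simp

theorem hasDerivAt_q {K s : ℝ} (hs : 0 < s) :
    HasDerivAt (q N K) (-(K * (N * s ^ (N - 1)) / (s ^ N) ^ 2)) s := by
  have h1 : HasDerivAt (fun t : ℝ => t ^ N) (N * s ^ (N - 1)) s := by
    simpa using hasDerivAt_pow N s
  have h2 := (h1.inv (by positivity)).const_mul K
  have h3 := h2.sub_const (1 / (N : ℝ))
  refine (h3.congr_deriv ?_)
  ring

/-- The derivative of the vector field. -/
noncomputable def dA (N : ℕ) (K : ℝ) (x : Sp N) : Sp N →L[ℝ] Sp N :=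
  q N K ‖x‖ • ContinuousLinearMap.id ℝ (Sp N) +
    ((-(K * (N * ‖x‖ ^ (N - 1)) / (‖x‖ ^ N) ^ 2)) • (‖x‖⁻¹ • innerSL ℝ x)).smulRight x

theorem hasFDerivAt_A (K : ℝ) {x : Sp N} (hx : x ≠ 0) :
    HasFDerivAt (fun y : Sp N => q N K ‖y‖ • y) (dA N K x) x := by
  have hpos : 0 < ‖x‖ := norm_pos_iff.2 hx
  have h1 : HasFDerivAt (fun y : Sp N => q N K ‖y‖)
      ((-(K * (N * ‖x‖ ^ (N - 1)) / (‖x‖ ^ N) ^ 2)) • (‖x‖⁻¹ • innerSL ℝ x)) x :=
    (hasDerivAt_q (N := N) (K := K) hpos).comp_hasFDerivAt x (hasFDerivAt_norm' hx)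
  exact h1.smul (hasFDerivAt_id x)

theorem continuousOn_dA (K : ℝ) : ContinuousOn (dA N K) {x | x ≠ 0} := by
  have hn : ContinuousOn (fun x : Sp N => ‖x‖) {x | x ≠ 0} := continuous_norm.continuousOn
  have h0 : ∀ x ∈ {x : Sp N | x ≠ 0}, ‖x‖ ≠ 0 := fun x hx => norm_ne_zero_iff.2 hx
  have hq : ContinuousOn (fun x : Sp N => q N K ‖x‖) {x | x ≠ 0} := by
    unfold q
    refine (continuousOn_const.mul ((hn.pow N).inv₀ fun x hx => pow_ne_zero _ (h0 x hx))).sub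
      continuousOn_const
  have hi : ContinuousOn (fun x : Sp N => (innerSL ℝ x : Sp N →L[ℝ] ℝ)) {x | x ≠ 0} :=
    (innerSL ℝ (E := Sp N)).continuous.continuousOn
  have hc : ContinuousOn (fun x : Sp N => (-(K * (N * ‖x‖ ^ (N - 1)) / (‖x‖ ^ N) ^ 2)))
      {x | x ≠ 0} := by
    refine ((continuousOn_const.mul (continuousOn_const.mul (hn.pow _))).div
      ((hn.pow N).pow 2) fun x hx => pow_ne_zero _ (pow_ne_zero _ (h0 x hx))).neg
  have hs : ContinuousOn (fun x : Sp N =>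
      ((-(K * (N * ‖x‖ ^ (N - 1)) / (‖x‖ ^ N) ^ 2)) • (‖x‖⁻¹ • innerSL ℝ x)).smulRight x)
      {x | x ≠ 0} := by
    have h1 : ContinuousOn (fun x : Sp N =>
      ((-(K * (N * ‖x‖ ^ (N - 1)) / (‖x‖ ^ N) ^ 2)) • (‖x‖⁻¹ • innerSL ℝ x) : Sp N →L[ℝ] ℝ))
      {x | x ≠ 0} := hc.smul ((hn.inv₀ h0).smul hi)
    exact ((ContinuousLinearMap.smulRightL ℝ (Sp N) (Sp N)).continuous₂).comp_continuousOn
      (h1.prodMk continuousOn_id)
  exact (hq.smul continuousOn_const).add hs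

theorem div_A (hN : N ≠ 0) (K : ℝ) {x : Sp N} (hx : x ≠ 0) :
    ∑ i, (dA N K x (EuclideanSpace.single i 1)) i = -1 := by
  have hpos : 0 < ‖x‖ := norm_pos_iff.2 hx
  have hsq : ∑ i, x i ^ 2 = ‖x‖ ^ 2 := by
    rw [EuclideanSpace.norm_sq_eq]
    simp
  have h1 : ∀ i, (dA N K x (EuclideanSpace.single i 1)) i =
      q N K ‖x‖ + (-(K * (N * ‖x‖ ^ (N - 1)) / (‖x‖ ^ N) ^ 2)) * ‖x‖⁻¹ * x i ^ 2 := by
    intro i
    simp [dA, EuclideanSpace.inner_single_right]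
    ring
  simp only [h1, Finset.sum_add_distrib, Finset.sum_const, Finset.card_univ, Fintype.card_fin,
    nsmul_eq_mul, ← Finset.mul_sum, hsq]
  have hN' : (N : ℝ) ≠ 0 := Nat.cast_ne_zero.2 hN
  have hp : ‖x‖ ^ N = ‖x‖ ^ (N - 1) * ‖x‖ := by
    rw [← pow_succ]
    congr 1
    omega
  have hpp : 0 < ‖x‖ ^ (N - 1) := by positivity
  unfold q
  rw [hp]
  field_simp
  ring

/-- The weak form for the field, away from the origin. -/
theorem weak_A (hN : N ≠ 0) (K : ℝ) {φ : Sp N → ℝ} (hφ : ContDiff ℝ 1 φ)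
    (hc : HasCompactSupport φ) (hs : tsupport φ ⊆ {x | x ≠ 0}) :
    ∫ x, fderiv ℝ φ x (q N K ‖x‖ • x) = ∫ x, φ x := by
  have h := ibp hφ hc hs (A := fun x => q N K ‖x‖ • x) (A' := dA N K)
    (fun x hx => hasFDerivAt_A K hx) (continuousOn_dA K) (d := -1) (fun x hx => div_A hN K hx)
  rw [h]
  ring

/-- The weak form for `K = 0`. -/
theorem weak_A0 (hN : N ≠ 0) {φ : Sp N → ℝ} (hφ : ContDiff ℝ 1 φ)
    (hc : HasCompactSupport φ) :
    ∫ x, fderiv ℝ φ x (q N 0 ‖x‖ • x) = ∫ x, φ x := by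
  have hq : ∀ x : Sp N, q N 0 ‖x‖ • x = (-(1 / (N:ℝ))) • x := by
    intro x
    simp [q]
  simp only [hq]
  have h := ibp hφ hc (subset_univ _) (A := fun x => (-(1 / (N:ℝ))) • x)
    (A' := fun _ => (-(1 / (N:ℝ))) • ContinuousLinearMap.id ℝ (Sp N))
    (fun x _ => (hasFDerivAt_id x).fun_const_smul _) continuousOn_const (d := -1) (fun x _ => by
      have hN' : (N : ℝ) ≠ 0 := Nat.cast_ne_zero.2 hN
      simp [hN'])
  rw [h]
  ring

end Pool.Agent.Q61.TP
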