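import Mathlib
import Pool.Agent.Q61.TP.B

/-!
# Radial functions
-/

open MeasureTheory Set Filter Topology
open scoped ContDiff RealInnerProductSpace NNReal

namespace Pool.Agent.Q61.TP

variable {N : ℕ}

/-- Radial primitive of a bounded measurable function. -/
noncomputable def prim (h : ℝ → ℝ) (b : ℝ) (x : Sp N) : ℝ := ∫ t in b..‖x‖, h t

theorem intervalIntegrable_of_bdd {h : ℝ → ℝ} (hm : Measurable h) {M : ℝ}
    (hM : ∀ s, |h s| ≤ M) (a b : ℝ) : IntervalIntegrable h volume a b := by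
  have h1 : IntervalIntegrable (fun _ : ℝ => M) volume a b := intervalIntegrable_const
  refine h1.mono_fun hm.aestronglyMeasurable (Eventually.of_forall fun s => ?_)
  show ‖h s‖ ≤ ‖M‖
  rw [Real.norm_eq_abs, Real.norm_eq_abs]
  exact (hM s).trans (le_abs_self M)

theorem lipschitz_prim {h : ℝ → ℝ} (hm : Measurable h) {M : ℝ≥0}
    (hM : ∀ s, |h s| ≤ M) (b : ℝ) : LipschitzWith M (prim (N := N) h b) := by
  refine LipschitzWith.of_dist_le_mul fun x y => ?_
  have hi := intervalIntegrable_of_bdd hm hM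
  rw [Real.dist_eq]
  unfold prim
  rw [intervalIntegral.integral_interval_sub_left (hi _ _) (hi _ _)]
  have h1 := intervalIntegral.norm_integral_le_of_norm_le_const (a := ‖y‖) (b := ‖x‖)
    (f := h) (C := M) (fun s _ => hM s)
  rw [Real.norm_eq_abs] at h1
  refine h1.trans ?_
  have h2 : |‖x‖ - ‖y‖| ≤ dist x y := by
    rw [dist_eq_norm]
    exact abs_norm_sub_norm_le x y
  exact mul_le_mul_of_nonneg_left h2 M.coe_nonneg

theorem gradient_prim {h : ℝ → ℝ} (hm : Measurable h) {M : ℝ}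
    (hM : ∀ s, |h s| ≤ M) (b : ℝ) {x : Sp N} (hx : x ≠ 0) (hc : ContinuousAt h ‖x‖) :
    gradient (prim (N := N) h b) x = (h ‖x‖ / ‖x‖) • x := by
  have h1 : HasDerivAt (fun s => ∫ t in b..s, h t) (h ‖x‖) ‖x‖ :=
    intervalIntegral.integral_hasDerivAt_right (intervalIntegrable_of_bdd hm hM _ _)
      hm.stronglyMeasurable.stronglyMeasurableAtFilter hc
  have h2 : HasFDerivAt (prim (N := N) h b) (h ‖x‖ • (‖x‖⁻¹ • innerSL ℝ x)) x :=
    h1.comp_hasFDerivAt x (hasFDerivAt_norm' hx)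
  have h3 : HasGradientAt (prim (N := N) h b) ((h ‖x‖ / ‖x‖) • x) x := by
    rw [hasGradientAt_iff_hasFDerivAt]
    refine h2.congr_fderiv ?_
    ext v
    simp only [smul_apply, smul_eq_mul, InnerProductSpace.toDual_apply_apply, inner_smul_left,
      innerSL_apply_apply]
    simp
    ring
  exact h3.gradient

theorem inner_gradient {φ : Sp N → ℝ} {x : Sp N} (hφ : DifferentiableAt ℝ φ x) (v : Sp N) :
    ⟪v, gradient φ x⟫ = fderiv ℝ φ x v := by
  have h := hφ.hasGradientAt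
  rw [hasGradientAt_iff_hasFDerivAt] at h
  rw [h.fderiv, InnerProductSpace.toDual_apply_apply, real_inner_comm]

/-- The profile. -/
noncomputable def prof (N : ℕ) (K a r1 r2 b σ : ℝ) (s : ℝ) : ℝ :=
  if a < s ∧ s < b then (if r1 < s ∧ s < r2 then q N K s * s / σ else q N K s * s) else 0

theorem measurable_prof (K a r1 r2 b σ : ℝ) : Measurable (prof N K a r1 r2 b σ) := by
  have hq : Measurable (q N K) := by
    unfold q
    fun_prop
  unfold prof
  refine Measurable.ite ?_ (Measurable.ite ?_ ?_ ?_) measurable_const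
  · exact measurableSet_Ioo
  · exact measurableSet_Ioo
  · fun_prop
  · fun_prop

theorem bdd_prof (K a r1 r2 b σ : ℝ) (ha : 0 ≤ a) (hK : K = 0 ∨ 0 < a) :
    ∃ M : ℝ≥0, ∀ s, |prof N K a r1 r2 b σ s| ≤ M := by
  have hb : ∃ M : ℝ, 0 ≤ M ∧ ∀ s, a < s → s < b → |q N K s * s| ≤ M := by
    refine ⟨(|K| * (a ^ N)⁻¹ + 1) * |b|, by positivity, fun s h1 h2 => ?_⟩
    have hs : 0 < s := ha.trans_lt h1
    have e1 : |s| ≤ |b| := by
      rw [abs_of_pos hs, abs_of_pos (hs.trans h2)]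
      exact h2.le
    have e2 : |q N K s| ≤ |K| * (a ^ N)⁻¹ + 1 := by
      unfold q
      have f1 : |K * (s ^ N)⁻¹| ≤ |K| * (a ^ N)⁻¹ := by
        rcases hK with hK | hK
        · simp [hK]
        · rw [abs_mul, abs_of_pos (by positivity : (0:ℝ) < (s ^ N)⁻¹)]
          gcongr
      have f2 : |1 / (N:ℝ)| ≤ 1 := by
        rw [abs_of_nonneg (by positivity)]
        rcases Nat.eq_zero_or_pos N with h | h
        · simp [h]
        · rw [div_le_one (by exact_mod_cast h)]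
          exact_mod_cast h
      calc |K * (s ^ N)⁻¹ - 1 / (N:ℝ)| ≤ |K * (s ^ N)⁻¹| + |1 / (N:ℝ)| := abs_sub _ _
        _ ≤ _ := add_le_add f1 f2
    rw [abs_mul]
    exact mul_le_mul e2 e1 (abs_nonneg _) (by positivity)
  obtain ⟨M, hM0, hM⟩ := hb
  refine ⟨⟨M + M / |σ|, by positivity⟩, fun s => ?_⟩
  show _ ≤ M + M / |σ|
  unfold prof
  split_ifs with h1 h2
  · rw [abs_div]
    have := div_le_div_of_nonneg_right (hM s h1.1 h1.2) (abs_nonneg σ)
    linarith
  · have := hM s h1.1 h1.2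
    have h3 : 0 ≤ M / |σ| := by positivity
    linarith
  · rw [abs_zero]
    positivity

theorem continuousAt_prof (K : ℝ) {a r1 r2 b σ s : ℝ} (hs0 : 0 < s) (hsa : s ≠ a) (hs1 : s ≠ r1)
    (hs2 : s ≠ r2) (hsb : s ≠ b) : ContinuousAt (prof N K a r1 r2 b σ) s := by
  have hq : ContinuousAt (q N K) s := by
    unfold q
    exact (continuousAt_const.mul ((continuousAt_id.pow N).inv₀ (by simp [hs0.ne']))).sub
      continuousAt_const
  have hq1 : ContinuousAt (fun s => q N K s * s) s := hq.mul continuousAt_id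
  have hq2 : ContinuousAt (fun s => q N K s * s / σ) s := hq1.div_const σ
  by_cases h1 : a < s ∧ s < b
  · have e1 : ∀ᶠ t in 𝓝 s, a < t ∧ t < b := (isOpen_Ioo (a := a) (b := b)).mem_nhds h1
    by_cases h2 : r1 < s ∧ s < r2
    · have e2 : ∀ᶠ t in 𝓝 s, r1 < t ∧ t < r2 := (isOpen_Ioo (a := r1) (b := r2)).mem_nhds h2
      refine hq2.congr ?_
      filter_upwards [e1, e2] with t h3 h4
      simp [prof, h3, h4]
    · have e2 : ∀ᶠ t in 𝓝 s, ¬ (r1 < t ∧ t < r2) := by
        rw [not_and_or, not_lt, not_lt] at h2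
        rcases h2 with h2 | h2
        · filter_upwards [(isOpen_Iio (a := r1)).mem_nhds (lt_of_le_of_ne h2 hs1)] with t ht
          intro h
          exact absurd h.1 (not_lt.2 (le_of_lt ht))
        · filter_upwards [(isOpen_Ioi (a := r2)).mem_nhds (lt_of_le_of_ne h2 (Ne.symm hs2))]
            with t ht
          intro h
          exact absurd h.2 (not_lt.2 (le_of_lt ht))
      refine hq1.congr ?_
      filter_upwards [e1, e2] with t h3 h4
      simp [prof, h3, h4]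
  · have e1 : ∀ᶠ t in 𝓝 s, ¬ (a < t ∧ t < b) := by
      rw [not_and_or, not_lt, not_lt] at h1
      rcases h1 with h2 | h2
      · filter_upwards [(isOpen_Iio (a := a)).mem_nhds (lt_of_le_of_ne h2 hsa)] with t ht
        intro h
        exact absurd h.1 (not_lt.2 (le_of_lt ht))
      · filter_upwards [(isOpen_Ioi (a := b)).mem_nhds (lt_of_le_of_ne h2 (Ne.symm hsb))]
          with t ht
        intro h
        exact absurd h.2 (not_lt.2 (le_of_lt ht))
    refine (continuousAt_const (y := (0:ℝ))).congr ?_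
    filter_upwards [e1] with t h3
    simp [prof, h3]

/-- The annulus. -/
def ann (N : ℕ) (a b : ℝ) : Set (Sp N) := {x | a < ‖x‖ ∧ ‖x‖ < b}

theorem weak_prim (hN : N ≠ 0) {K a r1 r2 b σ : ℝ} (hσ : σ ≠ 0) (ha : 0 ≤ a)
    {Ω : Set (Sp N)} (hΩm : MeasurableSet Ω) (hΩ : ∀ x, x ≠ 0 → (x ∈ Ω ↔ a < ‖x‖ ∧ ‖x‖ < b))
    (hK : K = 0 ∨ (0 < a ∧ (0 : Sp N) ∉ Ω))
    {φ : Sp N → ℝ} (hφ : ContDiff ℝ ∞ φ) (hc : HasCompactSupport φ) (hs : tsupport φ ⊆ Ω) :
    ∫ x in Ω, coef σ (ann N r1 r2) x * ⟪gradient (prim (prof N K a r1 r2 b σ) b) x,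
      gradient φ x⟫ = ∫ x in Ω, φ x := by
  have hφ1 : ContDiff ℝ 1 φ := hφ.of_le (by exact_mod_cast le_top)
  have hNt : Nontrivial (Sp N) := by
    have : Nonempty (Fin N) := ⟨⟨0, Nat.pos_of_ne_zero hN⟩⟩
    infer_instance
  have hφout : ∀ x, x ∉ tsupport φ → φ x = 0 := fun x hx => image_eq_zero_of_notMem_tsupport hx
  have hφdout : ∀ x, x ∉ tsupport φ → fderiv ℝ φ x = 0 := by
    intro x hx
    by_contra h
    exact hx (support_fderiv_subset ℝ (by simpa using h))
  obtain ⟨M, hM⟩ := bdd_prof (N := N) K a r1 r2 b σ ha (hK.imp id fun h => h.1)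
  have hae : ∀ᵐ x : Sp N, x ≠ 0 ∧ ‖x‖ ≠ a ∧ ‖x‖ ≠ r1 ∧ ‖x‖ ≠ r2 ∧ ‖x‖ ≠ b := by
    have hsph : ∀ r : ℝ, ∀ᵐ x : Sp N, ‖x‖ ≠ r := by
      intro r
      have h1 : volume (Metric.sphere (0 : Sp N) r) = 0 := Measure.addHaar_sphere volume 0 r
      rw [ae_iff]
      convert h1 using 2
      ext x
      simp
    filter_upwards [hsph 0, hsph a, hsph r1, hsph r2, hsph b] with x h0 h1 h2 h3 h4
    exact ⟨by simpa using h0, h1, h2, h3, h4⟩
  have e1 : ∫ x in Ω, coef σ (ann N r1 r2) x * ⟪gradient (prim (prof N K a r1 r2 b σ) b) x,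
      gradient φ x⟫ = ∫ x in Ω, fderiv ℝ φ x (q N K ‖x‖ • x) := by
    refine setIntegral_congr_ae hΩm ?_
    filter_upwards [hae] with x hx hxΩ
    obtain ⟨h0, h1, h2, h3, h4⟩ := hx
    have hpos : 0 < ‖x‖ := norm_pos_iff.2 h0
    have hx' := (hΩ x h0).1 hxΩ
    rw [gradient_prim (measurable_prof K a r1 r2 b σ) hM b h0
      (continuousAt_prof K hpos h1 h2 h3 h4),
      inner_gradient (hφ1.differentiable one_ne_zero x)]
    simp only [map_smul, smul_eq_mul]
    rw [← mul_assoc]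
    congr 1
    unfold coef prof
    rw [if_pos hx']
    by_cases h5 : r1 < ‖x‖ ∧ ‖x‖ < r2
    · have h6 : x ∈ ann N r1 r2 := h5
      rw [if_pos h6, if_pos h5]
      field_simp
    · have h6 : x ∉ ann N r1 r2 := h5
      rw [if_neg h6, if_neg h5]
      field_simp
  rw [e1, setIntegral_eq_integral_of_forall_compl_eq_zero (fun x hx => by
    rw [hφdout x fun h => hx (hs h)]; rfl),
    setIntegral_eq_integral_of_forall_compl_eq_zero (fun x hx => hφout x fun h => hx (hs h))]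
  rcases hK with hK | hK
  · subst hK
    exact weak_A0 hN hφ1 hc
  · refine weak_A hN K hφ1 hc fun x hx h0 => ?_
    exact hK.2 (h0 ▸ hs hx)

end Pool.Agent.Q61.TP
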