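import Mathlib
import Pool.Agent.Q61.TP.C

/-!
# Balls and annuli: domains, normals, the radial solutions
-/

open MeasureTheory Set Filter Topology
open scoped ContDiff RealInnerProductSpace NNReal

namespace Pool.Agent.Q61.TP

variable {N : ℕ}

theorem gradient_sq (x : Sp N) (c : ℝ) : gradient (fun y : Sp N => ‖y‖ ^ 2 - c) x = (2:ℝ) • x := by
  have h1 : HasFDerivAt (fun y : Sp N => ‖y‖ ^ 2 - c) (2 • innerSL ℝ x) x :=
    (hasStrictFDerivAt_norm_sq x).hasFDerivAt.sub_const c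
  have h3 : HasGradientAt (fun y : Sp N => ‖y‖ ^ 2 - c) ((2:ℝ) • x) x := by
    rw [hasGradientAt_iff_hasFDerivAt]
    refine h1.congr_fderiv ?_
    ext v
    simp
  exact h3.gradient

theorem gradient_sq' (x : Sp N) (c : ℝ) :
    gradient (fun y : Sp N => c - ‖y‖ ^ 2) x = -((2:ℝ) • x) := by
  have h1 : HasFDerivAt (fun y : Sp N => c - ‖y‖ ^ 2) (-(2 • innerSL ℝ x)) x :=
    (hasStrictFDerivAt_norm_sq x).hasFDerivAt.const_sub c
  have h3 : HasGradientAt (fun y : Sp N => c - ‖y‖ ^ 2) (-((2:ℝ) • x)) x := by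
    rw [hasGradientAt_iff_hasFDerivAt]
    refine h1.congr_fderiv ?_
    ext v
    simp
  exact h3.gradient

theorem normal_outer {Ω : Set (Sp N)} {x : Sp N} {b : ℝ} (hb : 0 < b) (hx : ‖x‖ = b)
    (hΩ : ∀ᶠ y in 𝓝 x, (y ∈ Ω ↔ ‖y‖ < b)) : IsOutwardNormal Ω x (‖x‖⁻¹ • x) := by
  have hx0 : x ≠ 0 := by
    rintro rfl
    rw [norm_zero] at hx
    exact hb.ne hx
  refine ⟨fun y => ‖y‖ ^ 2 - b ^ 2, (contDiff_norm_sq ℝ).sub contDiff_const, ?_, ?_, ?_, ?_⟩
  · simp [hx]
  · rw [gradient_sq]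
    exact smul_ne_zero two_ne_zero hx0
  · rw [gradient_sq, norm_smul, smul_smul]
    congr 1
    simp
  · filter_upwards [hΩ] with y hy
    rw [hy, sub_neg, sq_lt_sq₀ (norm_nonneg _) hb.le]

theorem normal_inner {Ω : Set (Sp N)} {x : Sp N} {a : ℝ} (ha : 0 < a) (hx : ‖x‖ = a)
    (hΩ : ∀ᶠ y in 𝓝 x, (y ∈ Ω ↔ a < ‖y‖)) : IsOutwardNormal Ω x (-(‖x‖⁻¹ • x)) := by
  have hx0 : x ≠ 0 := by
    rintro rfl
    rw [norm_zero] at hx
    exact ha.ne hx
  refine ⟨fun y => a ^ 2 - ‖y‖ ^ 2, contDiff_const.sub (contDiff_norm_sq ℝ), ?_, ?_, ?_, ?_⟩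
  · simp [hx]
  · rw [gradient_sq']
    exact neg_ne_zero.2 (smul_ne_zero two_ne_zero hx0)
  · rw [gradient_sq', norm_neg, norm_smul, smul_neg, smul_smul]
    congr 2
    simp
  · filter_upwards [hΩ] with y hy
    rw [hy, sub_neg, sq_lt_sq₀ ha.le (norm_nonneg _)]

theorem isOpen_ann (a b : ℝ) : IsOpen (ann N a b) :=
  (isOpen_lt continuous_const continuous_norm).inter (isOpen_lt continuous_norm continuous_const)

theorem closure_ann_subset (a b : ℝ) : closure (ann N a b) ⊆ {x | a ≤ ‖x‖ ∧ ‖x‖ ≤ b} := by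
  refine closure_minimal (fun x hx => ⟨hx.1.le, hx.2.le⟩) ?_
  exact (isClosed_le continuous_const continuous_norm).inter
    (isClosed_le continuous_norm continuous_const)

theorem frontier_ann {a b : ℝ} {x : Sp N} (hx : x ∈ frontier (ann N a b)) :
    ‖x‖ = a ∨ ‖x‖ = b := by
  rw [(isOpen_ann a b).frontier_eq] at hx
  have h1 := closure_ann_subset a b hx.1
  by_contra h
  rw [not_or] at h
  exact hx.2 ⟨lt_of_le_of_ne h1.1 (Ne.symm h.1), lt_of_le_of_ne h1.2 h.2⟩

theorem isDomain_ball (hN : N ≠ 0) {b : ℝ} (hb : 0 < b) : IsDomain (Metric.ball (0 : Sp N) b) := by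
  have hNt : Nontrivial (Sp N) := by
    have : Nonempty (Fin N) := ⟨⟨0, Nat.pos_of_ne_zero hN⟩⟩
    infer_instance
  refine ⟨Metric.isBounded_ball, ?_, Metric.isOpen_ball, fun x hx => ?_⟩
  · exact (convex_ball (0 : Sp N) b).isConnected ⟨0, by simp [hb]⟩
  · rw [frontier_ball _ hb.ne', mem_sphere_zero_iff_norm] at hx
    exact ⟨_, normal_outer hb hx (Eventually.of_forall fun y => by simp)⟩

theorem isDomain_ann (hN : 2 ≤ N) {a b : ℝ} (ha : 0 < a) (hab : a < b) :
    IsDomain (ann N a b) := by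
  refine ⟨?_, ?_, isOpen_ann a b, fun x hx => ?_⟩
  · refine (Metric.isBounded_ball (x := (0 : Sp N)) (r := b)).subset fun x hx => ?_
    simpa using hx.2
  · have hrank : 1 < Module.rank ℝ (Sp N) := by
      rw [← Module.finrank_eq_rank, finrank_euclideanSpace_fin]
      exact_mod_cast hN
    have h1 : IsConnected (Metric.sphere (0 : Sp N) 1) := isConnected_sphere hrank 0 zero_le_one
    have h2 : IsConnected (Ioo a b) := isConnected_Ioo hab
    have h3 : IsConnected (Ioo a b ×ˢ Metric.sphere (0 : Sp N) 1) := h2.prod h1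
    have h4 : ann N a b = (fun p : ℝ × Sp N => p.1 • p.2) ''
        (Ioo a b ×ˢ Metric.sphere (0 : Sp N) 1) := by
      ext x
      constructor
      · intro hx
        have hpos : 0 < ‖x‖ := ha.trans hx.1
        refine ⟨(‖x‖, ‖x‖⁻¹ • x), ⟨hx, ?_⟩, ?_⟩
        · simp only [mem_sphere_zero_iff_norm, norm_smul, norm_inv, norm_norm]
          field_simp
        · show ‖x‖ • (‖x‖⁻¹ • x) = x
          rw [smul_smul, mul_inv_cancel₀ hpos.ne', one_smul]
      · rintro ⟨⟨r, y⟩, ⟨hr, hy⟩, rfl⟩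
        rw [mem_sphere_zero_iff_norm] at hy
        have hr' : a < r ∧ r < b := hr
        show a < ‖r • y‖ ∧ ‖r • y‖ < b
        dsimp only at hy
        rw [norm_smul, hy, mul_one, Real.norm_eq_abs, abs_of_pos (ha.trans hr'.1)]
        exact hr'
    rw [h4]
    exact h3.image _ (by fun_prop)
  · rcases frontier_ann hx with h | h
    · refine ⟨_, normal_inner ha h ?_⟩
      filter_upwards [(isOpen_lt continuous_norm continuous_const).mem_nhds
        (show ‖x‖ < b by rw [h]; exact hab)] with y hy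
      exact ⟨fun h => h.1, fun h => ⟨h, hy⟩⟩
    · refine ⟨_, normal_outer (ha.trans hab) h ?_⟩
      filter_upwards [(isOpen_lt continuous_const continuous_norm).mem_nhds
        (show a < ‖x‖ by rw [h]; exact hab)] with y hy
      exact ⟨fun h => h.2, fun h => ⟨hy, h⟩⟩

/-! ### smooth extension -/

theorem contDiffOn_q (K : ℝ) : ContDiffOn ℝ ∞ (fun s => q N K s * s) (Ioi 0) := by
  unfold q
  refine ContDiffOn.mul (ContDiffOn.sub (contDiffOn_const.mul
    ((contDiff_id.pow N).contDiffOn.inv fun x hx => ?_)) contDiffOn_const) contDiffOn_id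
  have : (0:ℝ) < x := hx
  simp [this.ne']

theorem hasDerivAt_int (K : ℝ) {b s : ℝ} (hb : 0 < b) (hs : 0 < s) :
    HasDerivAt (fun s => ∫ t in b..s, q N K t * t) (q N K s * s) s := by
  have hc : ContinuousOn (fun s => q N K s * s) (Ioi 0) := (contDiffOn_q K).continuousOn
  refine intervalIntegral.integral_hasDerivAt_right ?_ ?_ ?_
  · refine (hc.mono fun t ht => ?_).intervalIntegrable
    rcases le_total b s with h | h
    · rw [uIcc_of_le h] at ht
      exact hb.trans_le ht.1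
    · rw [uIcc_of_ge h] at ht
      exact hs.trans_le ht.1
  · exact hc.stronglyMeasurableAtFilter isOpen_Ioi s hs
  · exact hc.continuousAt (Ioi_mem_nhds hs)

theorem contDiffOn_int (K : ℝ) {b : ℝ} (hb : 0 < b) :
    ContDiffOn ℝ ∞ (fun s => ∫ t in b..s, q N K t * t) (Ioi 0) := by
  rw [contDiffOn_infty_iff_deriv_of_isOpen isOpen_Ioi]
  refine ⟨fun s hs => (hasDerivAt_int K hb hs).differentiableAt.differentiableWithinAt, ?_⟩
  exact (contDiffOn_q (N := N) K).congr fun s hs => (hasDerivAt_int K hb hs).deriv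

theorem contDiffOn_ext (K : ℝ) {b : ℝ} (hb : 0 < b) {V : Set (Sp N)} (hV : ∀ x ∈ V, x ≠ 0) :
    ContDiffOn ℝ ∞ (prim (N := N) (fun t => q N K t * t) b) V := by
  have h1 : ContDiffOn ℝ ∞ (fun x : Sp N => ‖x‖) V :=
    fun x hx => (contDiffAt_norm ℝ (hV x hx)).contDiffWithinAt
  exact (contDiffOn_int K hb).comp h1 fun x hx => norm_pos_iff.2 (hV x hx)

theorem fderiv_ext (K : ℝ) {b : ℝ} (hb : 0 < b) {x : Sp N} (hx : x ≠ 0) (c : ℝ) :
    fderiv ℝ (prim (N := N) (fun t => q N K t * t) b) x (c • (‖x‖⁻¹ • x)) =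
      c * (q N K ‖x‖ * ‖x‖) := by
  have hpos : 0 < ‖x‖ := norm_pos_iff.2 hx
  have h2 : HasFDerivAt (prim (N := N) (fun t => q N K t * t) b)
      ((q N K ‖x‖ * ‖x‖) • (‖x‖⁻¹ • innerSL ℝ x)) x :=
    (hasDerivAt_int K hb hpos).comp_hasFDerivAt x (hasFDerivAt_norm' hx)
  rw [h2.fderiv]
  simp only [smul_apply, smul_eq_mul, innerSL_apply_apply, inner_smul_right,
    real_inner_self_eq_norm_sq]
  field_simp

theorem prof_eq {K a r1 r2 b σ s : ℝ} (h1 : a < s) (h2 : s < b) (h3 : s ≤ r1 ∨ r2 ≤ s) :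
    prof N K a r1 r2 b σ s = q N K s * s := by
  have h4 : ¬ (r1 < s ∧ s < r2) := by
    rintro ⟨h5, h6⟩
    rcases h3 with h3 | h3 <;> linarith
  simp [prof, h1, h2, h4]

theorem int_congr_ne {f g : ℝ → ℝ} {a b : ℝ} (S : Set ℝ) (hS : S.Countable)
    (h : ∀ s ∈ Ioo (min a b) (max a b), s ∉ S → f s = g s) :
    ∫ t in a..b, f t = ∫ t in a..b, g t := by
  refine intervalIntegral.integral_congr_ae ?_
  have h1 : ∀ᵐ s : ℝ, s ∉ S := hS.ae_notMem _
  have h2 : ∀ᵐ s : ℝ, s ≠ max a b := by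
    have := (countable_singleton (max a b)).ae_notMem (volume : Measure ℝ)
    simpa using this
  filter_upwards [h1, h2] with s hs1 hs2 hs3
  rw [uIoc, mem_Ioc] at hs3
  exact h s ⟨hs3.1, lt_of_le_of_ne hs3.2 hs2⟩ hs1

theorem prim_zero_outer {K a r1 r2 b σ : ℝ} {x : Sp N} (hx : b ≤ ‖x‖) :
    prim (prof N K a r1 r2 b σ) b x = 0 := by
  unfold prim
  rw [int_congr_ne (g := fun _ => 0) ∅ countable_empty]
  · simp
  · intro s hs _
    rw [min_eq_left hx] at hs
    have : ¬ (a < s ∧ s < b) := fun h => absurd h.2 (not_lt.2 hs.1.le)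
    simp [prof, this]

theorem prim_eq_outer {K a r1 r2 b σ : ℝ} {x : Sp N} (h1 : a ≤ ‖x‖)
    (h2 : r2 ≤ ‖x‖) (h3 : ‖x‖ ≤ b) :
    prim (prof N K a r1 r2 b σ) b x = prim (fun t => q N K t * t) b x := by
  unfold prim
  refine int_congr_ne ∅ countable_empty fun s hs _ => ?_
  rw [min_eq_right h3, max_eq_left h3] at hs
  exact prof_eq (h1.trans_lt hs.1) hs.2 (Or.inr (h2.trans hs.1.le))

theorem prim_split {K a r1 r2 b σ : ℝ} (ha : 0 < a)
    (hint : ∫ t in a..b, prof N K a r1 r2 b σ t = 0) (x : Sp N) :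
    prim (prof N K a r1 r2 b σ) b x = prim (prof N K a r1 r2 b σ) a x := by
  obtain ⟨M, hM⟩ := bdd_prof (N := N) K a r1 r2 b σ ha.le (Or.inr ha)
  have hi := intervalIntegrable_of_bdd (measurable_prof K a r1 r2 b σ) hM
  unfold prim
  have h := intervalIntegral.integral_add_adjacent_intervals (hi a b) (hi b ‖x‖)
  rw [hint, zero_add] at h
  exact h

theorem prim_zero_inner {K a r1 r2 b σ : ℝ} (ha : 0 < a)
    (hint : ∫ t in a..b, prof N K a r1 r2 b σ t = 0) {x : Sp N} (hx : ‖x‖ ≤ a) :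
    prim (prof N K a r1 r2 b σ) b x = 0 := by
  rw [prim_split ha hint]
  unfold prim
  rw [int_congr_ne (g := fun _ => 0) ∅ countable_empty]
  · simp
  · intro s hs _
    rw [max_eq_left hx] at hs
    have : ¬ (a < s ∧ s < b) := fun h => absurd h.1 (not_lt.2 hs.2.le)
    simp [prof, this]

theorem prim_eq_inner {K a r1 r2 b σ : ℝ} (ha : 0 < a)
    (hint : ∫ t in a..b, prof N K a r1 r2 b σ t = 0) {x : Sp N} (h1 : a ≤ ‖x‖)
    (h2 : ‖x‖ ≤ r1) (h3 : r1 ≤ b) :
    prim (prof N K a r1 r2 b σ) b x = prim (fun t => q N K t * t) a x := by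
  rw [prim_split ha hint]
  unfold prim
  refine int_congr_ne ∅ countable_empty fun s hs _ => ?_
  rw [min_eq_left h1, max_eq_right h1] at hs
  exact prof_eq hs.1 (hs.2.trans_le (h2.trans h3)) (Or.inl (hs.2.le.trans h2))

/-- The ball with an annular core. -/
theorem solves_ball (hN : N ≠ 0) {r1 r2 b σ : ℝ} (hσ : σ ≠ 0) (h12 : r2 < b)
    (hr2 : 0 < r2) :
    Solves σ (ann N r1 r2) (Metric.ball (0 : Sp N) b) (q N 0 b * b)
      (prim (prof N 0 0 r1 r2 b σ) b) := by
  have hNt : Nontrivial (Sp N) := by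
    have : Nonempty (Fin N) := ⟨⟨0, Nat.pos_of_ne_zero hN⟩⟩
    infer_instance
  have hb : 0 < b := hr2.trans h12
  obtain ⟨M, hM⟩ := bdd_prof (N := N) 0 0 r1 r2 b σ le_rfl (Or.inl rfl)
  refine ⟨⟨M, lipschitz_prim (measurable_prof 0 0 r1 r2 b σ) hM b⟩, fun x hx => ?_,
    fun φ h1 h2 h3 => ?_, fun x hx => ?_⟩
  · refine prim_zero_outer ?_
    simpa using hx
  · refine weak_prim hN hσ le_rfl Metric.isOpen_ball.measurableSet (fun x hx => ?_)
      (Or.inl rfl) h1 h2 h3
    rw [mem_ball_zero_iff]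
    exact ⟨fun h => ⟨norm_pos_iff.2 hx, h⟩, fun h => h.2⟩
  · rw [frontier_ball _ hb.ne', mem_sphere_zero_iff_norm] at hx
    have hx0 : x ≠ 0 := by
      rintro rfl
      rw [norm_zero] at hx
      exact hb.ne hx
    refine ⟨‖x‖⁻¹ • x, {y | r2 < ‖y‖}, prim (fun t => q N 0 t * t) b,
      normal_outer hb hx (Eventually.of_forall fun y => by simp),
      isOpen_lt continuous_const continuous_norm, ?_, ?_, ?_, ?_⟩
    · show r2 < ‖x‖
      rw [hx]; exact h12
    · exact contDiffOn_ext 0 hb fun y hy => norm_pos_iff.1 (hr2.trans hy)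
    · intro y hy hyc
      rw [closure_ball _ hb.ne', mem_closedBall_zero_iff] at hyc
      exact prim_eq_outer (norm_nonneg y) (le_of_lt hy) hyc
    · have := fderiv_ext (N := N) 0 hb hx0 1
      rw [one_smul, one_mul, hx] at this
      rw [hx]
      exact this

/-- The annulus with an annular core. -/
theorem solves_ann (hN : N ≠ 0) {K a r1 r2 b σ : ℝ} (hσ : σ ≠ 0) (ha : 0 < a) (h1 : a < r1)
    (h12 : r1 < r2) (h2 : r2 < b) (hg : q N K a * a = -(q N K b * b))
    (hint : ∫ t in a..b, prof N K a r1 r2 b σ t = 0) :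
    Solves σ (ann N r1 r2) (ann N a b) (q N K b * b) (prim (prof N K a r1 r2 b σ) b) := by
  have hab : a < b := h1.trans (h12.trans h2)
  have hb : 0 < b := ha.trans hab
  obtain ⟨M, hM⟩ := bdd_prof (N := N) K a r1 r2 b σ ha.le (Or.inr ha)
  refine ⟨⟨M, lipschitz_prim (measurable_prof K a r1 r2 b σ) hM b⟩, fun x hx => ?_,
    fun φ g1 g2 g3 => ?_, fun x hx => ?_⟩
  · rcases le_or_gt ‖x‖ a with h | h
    · exact prim_zero_inner ha hint h
    · refine prim_zero_outer ?_
      by_contra h'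
      exact hx ⟨h, not_le.1 h'⟩
  · refine weak_prim hN hσ ha.le (isOpen_ann a b).measurableSet (fun x hx => Iff.rfl)
      (Or.inr ⟨ha, fun h => ?_⟩) g1 g2 g3
    have : a < ‖(0 : Sp N)‖ := h.1
    rw [norm_zero] at this
    linarith
  · rcases frontier_ann hx with h | h
    · have hx0 : x ≠ 0 := by
        rintro rfl
        rw [norm_zero] at h
        exact ha.ne h
      refine ⟨-(‖x‖⁻¹ • x), {y | 0 < ‖y‖ ∧ ‖y‖ < r1}, prim (fun t => q N K t * t) a,
        normal_inner ha h ?_, ?_, ?_, ?_, ?_, ?_⟩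
      · filter_upwards [(isOpen_lt continuous_norm continuous_const).mem_nhds
          (show ‖x‖ < b by rw [h]; exact hab)] with y hy
        exact ⟨fun h => h.1, fun h => ⟨h, hy⟩⟩
      · exact (isOpen_lt continuous_const continuous_norm).inter
          (isOpen_lt continuous_norm continuous_const)
      · exact ⟨by rw [h]; exact ha, by rw [h]; exact h1⟩
      · exact contDiffOn_ext K ha fun y hy => norm_pos_iff.1 hy.1
      · intro y hy hyc
        exact prim_eq_inner ha hint (closure_ann_subset a b hyc).1 hy.2.le (h12.trans h2).le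
      · have := fderiv_ext (N := N) K ha hx0 (-1)
        rw [h] at this ⊢
        rw [neg_one_smul] at this
        rw [this, hg]
        ring
    · have hx0 : x ≠ 0 := by
        rintro rfl
        rw [norm_zero] at h
        exact hb.ne h
      refine ⟨‖x‖⁻¹ • x, {y | r2 < ‖y‖}, prim (fun t => q N K t * t) b,
        normal_outer hb h ?_, isOpen_lt continuous_const continuous_norm, ?_, ?_, ?_, ?_⟩
      · filter_upwards [(isOpen_lt continuous_const continuous_norm).mem_nhds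
          (show a < ‖x‖ by rw [h]; exact hab)] with y hy
        exact ⟨fun h => h.2, fun h => ⟨hy, h⟩⟩
      · show r2 < ‖x‖
        rw [h]; exact h2
      · exact contDiffOn_ext K hb fun y hy => norm_pos_iff.1 ((ha.trans (h1.trans h12)).trans hy)
      · intro y hy hyc
        have := closure_ann_subset a b hyc
        exact prim_eq_outer this.1 (le_of_lt hy) this.2
      · have := fderiv_ext (N := N) K hb hx0 1
        rw [one_smul, one_mul, h] at this
        rw [h]
        exact this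

end Pool.Agent.Q61.TP
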