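import Mathlib
import Pool.Agent.Q61.TP.D

/-!
# Existence of the annular solutions for every coefficient
-/

open MeasureTheory Set Filter Topology
open scoped ContDiff RealInnerProductSpace NNReal

namespace Pool.Agent.Q61.TP

/-- The flux profile. -/
noncomputable def gg (n : ℕ) (K s : ℝ) : ℝ := K * (s ^ n)⁻¹ - s / (n + 1)

theorem q_mul (n : ℕ) (K : ℝ) {s : ℝ} (hs : s ≠ 0) : q (n + 1) K s * s = gg n K s := by
  unfold q gg
  push_cast
  have : (n:ℝ) + 1 ≠ 0 := by positivity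
  rw [pow_succ]
  field_simp

theorem tangent (n : ℕ) {x y : ℝ} (hx : 0 < x) (hy : 0 < y) :
    (x ^ n)⁻¹ - n * (x ^ (n + 1))⁻¹ * (y - x) ≤ (y ^ n)⁻¹ := by
  have h1 : 1 + (n:ℝ) * (x / y - 1) ≤ (1 + (x / y - 1)) ^ n := by
    refine one_add_mul_le_pow ?_ n
    have : 0 < x / y := by positivity
    linarith
  have h2 : 1 - y / x ≤ x / y - 1 := by
    have h3 : x / y + y / x - 2 = (x - y) ^ 2 / (x * y) := by
      field_simp
      ring
    have h4 : 0 ≤ (x - y) ^ 2 / (x * y) := by positivity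
    linarith
  have h3 : 1 + (n:ℝ) * (1 - y / x) ≤ (x / y) ^ n := by
    have h4 : (n:ℝ) * (1 - y / x) ≤ n * (x / y - 1) := by gcongr
    have h5 : (1 + (x / y - 1)) = x / y := by ring
    rw [h5] at h1
    linarith
  have h4 : (x ^ n)⁻¹ * (1 + (n:ℝ) * (1 - y / x)) ≤ (x ^ n)⁻¹ * (x / y) ^ n := by gcongr
  have h5 : (x ^ n)⁻¹ * (x / y) ^ n = (y ^ n)⁻¹ := by
    rw [div_pow]
    field_simp
  have h6 : (x ^ n)⁻¹ * (1 + (n:ℝ) * (1 - y / x)) =
      (x ^ n)⁻¹ - n * (x ^ (n + 1))⁻¹ * (y - x) := by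
    rw [pow_succ]
    field_simp
    ring
  linarith

theorem lip_inv (n : ℕ) {x y : ℝ} (hx : 1 ≤ x) (hxy : x ≤ y) :
    (x ^ n)⁻¹ - n * (y - x) ≤ (y ^ n)⁻¹ ∧ (y ^ n)⁻¹ ≤ (x ^ n)⁻¹ := by
  have hx0 : 0 < x := by linarith
  have h1 := tangent n hx0 (hx0.trans_le hxy)
  have h2 : (x ^ (n + 1))⁻¹ ≤ 1 := inv_le_one_of_one_le₀ (one_le_pow₀ hx)
  constructor
  · have h3 : (n:ℝ) * (x ^ (n + 1))⁻¹ * (y - x) ≤ n * (y - x) := by
      have h4 : 0 ≤ y - x := by linarith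
      have h5 : (n:ℝ) * (x ^ (n + 1))⁻¹ ≤ n := mul_le_of_le_one_right (by positivity) h2
      exact mul_le_mul_of_nonneg_right h5 h4
    linarith
  · gcongr

theorem continuousOn_gg (n : ℕ) (K : ℝ) : ContinuousOn (gg n K) (Ioi 0) := by
  unfold gg
  refine (continuousOn_const.mul ((continuous_pow n).continuousOn.inv₀ fun x hx => ?_)).sub
    (continuous_id.div_const _).continuousOn
  have : (0:ℝ) < x := hx
  positivity

theorem integrable_gg (n : ℕ) (K : ℝ) {a b : ℝ} (ha : 0 < a) (hb : 0 < b) :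
    IntervalIntegrable (gg n K) volume a b := by
  refine ((continuousOn_gg n K).mono fun t ht => ?_).intervalIntegrable
  rcases le_total a b with h | h
  · rw [uIcc_of_le h] at ht
    exact ha.trans_le ht.1
  · rw [uIcc_of_ge h] at ht
    exact hb.trans_le ht.1

/-- All the data: thin annulus. -/
theorem thin {n : ℕ} (hn : 1 ≤ n) {κ : ℝ} (hκ : 0 < κ) :
    ∃ t K Q δ : ℝ, 1 < t ∧ gg n K 1 = -gg n K t ∧ 0 < Q ∧ 0 < δ ∧ δ < t - 1 ∧
      (∫ s in (1:ℝ)..t, gg n K s) = -Q ∧ Q < κ * ∫ s in (1:ℝ)..(1 + δ), gg n K s ∧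
      Q < κ * ∫ s in (t - δ)..t, -gg n K s := by
  have hn0 : (0:ℝ) < n := by exact_mod_cast hn
  have hn1 : (1:ℝ) ≤ n := by exact_mod_cast hn
  obtain ⟨ε, hεdef⟩ : ∃ ε, ε = min 1 (κ / (100 * ((n:ℝ) + 1) ^ 3)) := ⟨_, rfl⟩
  have hε0 : 0 < ε := by rw [hεdef]; positivity
  have hε1 : ε ≤ 1 := by rw [hεdef]; exact min_le_left _ _
  have hεκ : ε * (100 * ((n:ℝ) + 1) ^ 3) ≤ κ := by
    have h1 : ε ≤ κ / (100 * ((n:ℝ) + 1) ^ 3) := by rw [hεdef]; exact min_le_right _ _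
    rwa [le_div_iff₀ (by positivity)] at h1
  obtain ⟨t, ht⟩ : ∃ t, t = 1 + ε := ⟨_, rfl⟩
  have ht1 : 1 < t := by linarith
  have ht2 : t ≤ 2 := by linarith
  obtain ⟨f, hf⟩ : ∃ f, f = (t ^ n)⁻¹ := ⟨_, rfl⟩
  have hf0 : 0 < f := by rw [hf]; positivity
  have hf1 : f ≤ 1 := by rw [hf]; exact inv_le_one_of_one_le₀ (one_le_pow₀ ht1.le)
  obtain ⟨K, hK⟩ : ∃ K, K = (1 + t) / (((n:ℝ) + 1) * (1 + f)) := ⟨_, rfl⟩
  have hK0 : 0 < K := by rw [hK]; positivity
  have hKe : K * (((n:ℝ) + 1) * (1 + f)) = 1 + t := by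
    rw [hK]
    field_simp
  have hK3 : K * ((n:ℝ) + 1) ≤ 3 := by
    have h1 : 0 ≤ K * ((n:ℝ) + 1) * f := by positivity
    nlinarith
  -- `m`
  obtain ⟨m, hm⟩ : ∃ m, m = gg n K 1 := ⟨_, rfl⟩
  have hm' : m = K - 1 / ((n:ℝ) + 1) := by rw [hm]; simp [gg]
  have hgt : gg n K t = -m := by
    rw [hm']
    unfold gg
    rw [← hf]
    field_simp
    linarith
  have hmε : ε ≤ 2 * ((n:ℝ) + 1) * m := by
    have h1 : (1 + f) * (((n:ℝ) + 1) * m) = t - f := by
      rw [hm']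
      field_simp
      linarith
    have h2 : 0 < t - f := by linarith
    have h3 : 0 < ((n:ℝ) + 1) * m := by
      by_contra h
      have : (1 + f) * (((n:ℝ) + 1) * m) ≤ 0 := mul_nonpos_of_nonneg_of_nonpos (by linarith)
        (not_lt.1 h)
      linarith
    nlinarith
  have hm0 : 0 < m := by
    by_contra h
    have : 2 * ((n:ℝ) + 1) * m ≤ 0 := mul_nonpos_of_nonneg_of_nonpos (by positivity) (not_lt.1 h)
    linarith
  -- Lipschitz bound
  have hlip : ∀ x y : ℝ, 1 ≤ x → x ≤ y → gg n K x - 3 * (y - x) ≤ gg n K y ∧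
      gg n K y ≤ gg n K x := by
    intro x y hx hxy
    obtain ⟨h1, h2⟩ := lip_inv n hx hxy
    unfold gg
    have h3 : 0 ≤ y - x := by linarith
    have h4 : K * ((x ^ n)⁻¹ - n * (y - x)) ≤ K * (y ^ n)⁻¹ := by gcongr
    have h5 : K * (y ^ n)⁻¹ ≤ K * (x ^ n)⁻¹ := by gcongr
    have h6 : y / ((n:ℝ) + 1) - x / (n + 1) = (y - x) / (n + 1) := by ring
    have h7 : 0 ≤ (y - x) / ((n:ℝ) + 1) := by positivity
    constructor
    · have h8 : (K * n + 1 / ((n:ℝ) + 1)) * (y - x) ≤ 3 * (y - x) := by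
        refine mul_le_mul_of_nonneg_right ?_ h3
        have h9 : 1 / ((n:ℝ) + 1) ≤ K := by linarith
        linarith
      have h10 : (K * n + 1 / ((n:ℝ) + 1)) * (y - x) = K * (n * (y - x)) + (y - x) / (n + 1) := by
        ring
      nlinarith
    · linarith
  have hmle : 2 * m ≤ 3 * ε := by
    have := (hlip 1 t le_rfl ht1.le).1
    rw [hgt, ← hm] at this
    linarith
  obtain ⟨δ, hδ⟩ : ∃ δ, δ = m / 6 := ⟨_, rfl⟩
  have hδ0 : 0 < δ := by rw [hδ]; positivity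
  have hδε : δ < ε := by linarith
  -- the integrals over the ends
  have hA1 : δ * (m / 2) ≤ ∫ s in (1:ℝ)..(1 + δ), gg n K s := by
    have h1 : ∫ s in (1:ℝ)..(1 + δ), (m / 2) = δ * (m / 2) := by
      simp
      ring
    rw [← h1]
    refine intervalIntegral.integral_mono_on (by linarith) intervalIntegrable_const
      (integrable_gg n K one_pos (by linarith)) fun s hs => ?_
    have := (hlip 1 s le_rfl hs.1).1
    rw [← hm] at this
    have h2 : s - 1 ≤ δ := by linarith [hs.2]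
    linarith
  have hA2 : δ * (m / 2) ≤ ∫ s in (t - δ)..t, -gg n K s := by
    have h1 : ∫ s in (t - δ)..t, (m / 2) = δ * (m / 2) := by
      simp
      ring
    rw [← h1]
    refine intervalIntegral.integral_mono_on (by linarith) intervalIntegrable_const
      (integrable_gg n K (by linarith) (by linarith)).neg fun s hs => ?_
    have := (hlip s t (by linarith [hs.1]) hs.2).1
    rw [hgt] at this
    have h2 : t - s ≤ δ := by linarith [hs.1]
    linarith
  have hAm : ε ^ 2 ≤ 48 * ((n:ℝ) + 1) ^ 2 * (δ * (m / 2)) := by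
    rw [hδ]
    have h1 : ε ^ 2 ≤ (2 * ((n:ℝ) + 1) * m) ^ 2 := by gcongr
    nlinarith
  -- the total integral
  obtain ⟨Q, hQ⟩ : ∃ Q, Q = -∫ s in (1:ℝ)..t, gg n K s := ⟨_, rfl⟩
  have hsym : ∫ s in (1:ℝ)..t, gg n K (1 + t - s) = ∫ s in (1:ℝ)..t, gg n K s := by
    rw [intervalIntegral.integral_comp_sub_left (fun s => gg n K s)]
    congr 1 <;> ring
  have hci : ContinuousOn (fun s : ℝ => gg n K (1 + t - s)) (Icc 1 t) := by
    refine (continuousOn_gg n K).comp (by fun_prop) fun s hs => ?_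
    show (0:ℝ) < 1 + t - s
    linarith [hs.2]
  have hint2 : IntervalIntegrable (fun s => gg n K (1 + t - s)) volume 1 t :=
    ContinuousOn.intervalIntegrable (by rwa [uIcc_of_le ht1.le])
  have h2Q : 2 * Q = ∫ s in (1:ℝ)..t, -(gg n K s + gg n K (1 + t - s)) := by
    rw [intervalIntegral.integral_neg, intervalIntegral.integral_add
      (integrable_gg n K one_pos (by linarith)) hint2, hsym, hQ]
    ring
  have hform : ∀ s, -(gg n K s + gg n K (1 + t - s)) =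
      K * (1 + f - (s ^ n)⁻¹ - ((1 + t - s) ^ n)⁻¹) := by
    intro s
    unfold gg
    have h1 : (1 + t) / ((n:ℝ) + 1) = K * (1 + f) := by
      field_simp
      linarith
    have h2 : s / ((n:ℝ) + 1) + (1 + t - s) / (n + 1) = (1 + t) / (n + 1) := by ring
    linarith
  have hup : ∀ s ∈ Icc 1 t, 1 + f - (s ^ n)⁻¹ - ((1 + t - s) ^ n)⁻¹ ≤ n * (n + 1) * ε ^ 2 := by
    intro s hs
    have h1 := tangent n (x := 1) (y := s) one_pos (by linarith [hs.1])
    have h2 := tangent n (x := t) (y := 1 + t - s) (by linarith) (by linarith [hs.2])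
    rw [← hf] at h2
    simp only [one_pow, inv_one, mul_one] at h1
    have h3 : 1 - ((n:ℝ) + 1) * ε ≤ (t ^ (n + 1))⁻¹ := by
      have := (lip_inv (n + 1) le_rfl ht1.le).1
      simp only [one_pow, inv_one] at this
      push_cast at this
      rw [ht] at this ⊢
      linarith
    have h4 : 0 ≤ (n:ℝ) * (s - 1) := mul_nonneg hn0.le (by linarith [hs.1])
    have h5 : (n:ℝ) * (s - 1) * (1 - (t ^ (n + 1))⁻¹) ≤ n * (s - 1) * (((n:ℝ) + 1) * ε) :=
      mul_le_mul_of_nonneg_left (by linarith) h4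
    have h6 : (n:ℝ) * (s - 1) * (((n:ℝ) + 1) * ε) ≤ n * ε * (((n:ℝ) + 1) * ε) := by
      have : s - 1 ≤ ε := by linarith [hs.2]
      gcongr
    nlinarith
  have hlow : ∀ s ∈ Ioo 1 t, 0 < 1 + f - (s ^ n)⁻¹ - ((1 + t - s) ^ n)⁻¹ := by
    intro s hs
    have hc : StrictConvexOn ℝ (Ioi 0) fun x : ℝ => x ^ (-(n:ℤ)) :=
      strictConvexOn_zpow (by omega) (by omega)
    have e1 : ∀ x : ℝ, x ^ (-(n:ℤ)) = (x ^ n)⁻¹ := fun x => by rw [zpow_neg, zpow_natCast]
    obtain ⟨lam, hl⟩ : ∃ lam, lam = (s - 1) / (t - 1) := ⟨_, rfl⟩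
    have hs1 : 0 < s - 1 := by linarith [hs.1]
    have hs2 : 0 < t - s := by linarith [hs.2]
    have ht3 : 0 < t - 1 := by linarith
    have hl0 : 0 < lam := by rw [hl]; positivity
    have hl1 : 0 < 1 - lam := by
      have : 1 - lam = (t - s) / (t - 1) := by
        rw [hl]
        field_simp
        ring
      rw [this]; positivity
    have h1 := hc.2 (mem_Ioi.2 (one_pos (α := ℝ))) (show t ∈ Ioi 0 from by
      show (0:ℝ) < t
      linarith) ht1.ne hl1 hl0 (by ring)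
    have h2 := hc.2 (mem_Ioi.2 (one_pos (α := ℝ))) (show t ∈ Ioi 0 from by
      show (0:ℝ) < t
      linarith) ht1.ne hl0 hl1 (by ring)
    simp only [e1, smul_eq_mul, one_pow, inv_one, mul_one, ← hf] at h1 h2
    have e2 : 1 - lam + lam * t = s := by
      rw [hl]
      field_simp
      ring
    have e3 : lam + (1 - lam) * t = 1 + t - s := by
      rw [hl]
      field_simp
      ring
    rw [e2] at h1
    rw [e3] at h2
    linarith
  have hQpos : 0 < Q := by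
    have h1 : 0 < ∫ s in (1:ℝ)..t, -(gg n K s + gg n K (1 + t - s)) := by
      refine intervalIntegral.intervalIntegral_pos_of_pos_on
        ((integrable_gg n K one_pos (by linarith)).add hint2).neg (fun s hs => ?_) ht1
      rw [hform]
      exact mul_pos hK0 (hlow s hs)
    linarith
  have hQle : 2 * Q ≤ 3 * n * ε ^ 3 := by
    rw [h2Q]
    have h1 : ∫ s in (1:ℝ)..t, K * ((n:ℝ) * (n + 1) * ε ^ 2) = ε * (K * (n * (n + 1) * ε ^ 2)) := by
      simp [ht]
      ring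
    have h2 : ∫ s in (1:ℝ)..t, -(gg n K s + gg n K (1 + t - s)) ≤
        ∫ s in (1:ℝ)..t, K * ((n:ℝ) * (n + 1) * ε ^ 2) := by
      refine intervalIntegral.integral_mono_on ht1.le
        ((integrable_gg n K one_pos (by linarith)).add hint2).neg
        intervalIntegrable_const fun s hs => ?_
      rw [hform]
      exact mul_le_mul_of_nonneg_left (hup s hs) hK0.le
    refine h2.trans (h1.le.trans ?_)
    have h3 : ε * (K * ((n:ℝ) * (n + 1) * ε ^ 2)) = K * (n + 1) * (n * ε ^ 3) := by ring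
    rw [h3]
    have h4 : 0 ≤ (n:ℝ) * ε ^ 3 := by positivity
    nlinarith
  have hfin : Q < κ * (δ * (m / 2)) := by
    have h0 : 0 < δ * (m / 2) := by positivity
    have h1 : ε * (100 * ((n:ℝ) + 1) ^ 3) * (δ * (m / 2)) ≤ κ * (δ * (m / 2)) := by gcongr
    have h2 : ε * (100 * ((n:ℝ) + 1)) / 48 * ε ^ 2 ≤
        ε * (100 * ((n:ℝ) + 1)) / 48 * (48 * ((n:ℝ) + 1) ^ 2 * (δ * (m / 2))) := by gcongr
    have h3 : ε * (100 * ((n:ℝ) + 1)) / 48 * (48 * ((n:ℝ) + 1) ^ 2 * (δ * (m / 2))) =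
        ε * (100 * ((n:ℝ) + 1) ^ 3) * (δ * (m / 2)) := by ring
    have h4 : ε * (100 * ((n:ℝ) + 1)) / 48 * ε ^ 2 = 100 / 48 * ((n + 1) * ε ^ 3) := by ring
    have h5 : 0 < ε ^ 3 := by positivity
    have h6 : 0 < (n:ℝ) * ε ^ 3 := by positivity
    nlinarith
  refine ⟨t, K, Q, δ, ht1, ?_, hQpos, hδ0, by linarith, ?_, ?_, ?_⟩
  · rw [hgt, ← hm]; ring
  · rw [hQ]; ring
  · exact hfin.trans_le (by gcongr)
  · exact hfin.trans_le (by gcongr)

end Pool.Agent.Q61.TP
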