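import Mathlib
import Pool.Agent.Q61.TP.E

/-!
# Existence of annular solutions, volumes
-/

open MeasureTheory Set Filter Topology
open scoped ContDiff RealInnerProductSpace NNReal

namespace Pool.Agent.Q61.TP

theorem prof_int (n : ℕ) (K : ℝ) {a r1 r2 b σ : ℝ} (ha : 0 < a) (h1 : a < r1)
    (h12 : r1 < r2) (h2 : r2 < b) :
    ∫ t in a..b, prof (n + 1) K a r1 r2 b σ t =
      (∫ t in a..b, gg n K t) + (1 / σ - 1) * ∫ t in r1..r2, gg n K t := by
  have hr1 : 0 < r1 := ha.trans h1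
  have hr2 : 0 < r2 := hr1.trans h12
  have hb : 0 < b := hr2.trans h2
  obtain ⟨M, hM⟩ := bdd_prof (N := n + 1) K a r1 r2 b σ ha.le (Or.inr ha)
  have hi := intervalIntegrable_of_bdd (measurable_prof (N := n + 1) K a r1 r2 b σ) hM
  have hg : ∀ {x y : ℝ}, 0 < x → 0 < y → IntervalIntegrable (gg n K) volume x y :=
    fun hx hy => integrable_gg n K hx hy
  rw [← intervalIntegral.integral_add_adjacent_intervals (hi a r1) (hi r1 b),
    ← intervalIntegral.integral_add_adjacent_intervals (hi r1 r2) (hi r2 b),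
    ← intervalIntegral.integral_add_adjacent_intervals (hg ha hr1) (hg hr1 hb),
    ← intervalIntegral.integral_add_adjacent_intervals (hg hr1 hr2) (hg hr2 hb)]
  have e1 : ∫ t in a..r1, prof (n + 1) K a r1 r2 b σ t = ∫ t in a..r1, gg n K t := by
    refine int_congr_ne ∅ countable_empty fun s hs _ => ?_
    rw [min_eq_left h1.le, max_eq_right h1.le] at hs
    rw [prof_eq hs.1 (hs.2.trans (h12.trans h2)) (Or.inl hs.2.le), q_mul n K (ha.trans hs.1).ne']
  have e2 : ∫ t in r1..r2, prof (n + 1) K a r1 r2 b σ t = ∫ t in r1..r2, gg n K t / σ := by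
    refine int_congr_ne ∅ countable_empty fun s hs _ => ?_
    rw [min_eq_left h12.le, max_eq_right h12.le] at hs
    have h3 : a < s ∧ s < b := ⟨h1.trans hs.1, hs.2.trans h2⟩
    have h4 : r1 < s ∧ s < r2 := ⟨hs.1, hs.2⟩
    unfold prof
    rw [if_pos h3, if_pos h4, q_mul n K (hr1.trans hs.1).ne']
  have e3 : ∫ t in r2..b, prof (n + 1) K a r1 r2 b σ t = ∫ t in r2..b, gg n K t := by
    refine int_congr_ne ∅ countable_empty fun s hs _ => ?_
    rw [min_eq_left h2.le, max_eq_right h2.le] at hs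
    rw [prof_eq ((h1.trans h12).trans hs.1) hs.2 (Or.inr hs.1.le), q_mul n K (hr2.trans hs.1).ne']
  rw [e1, e2, e3, intervalIntegral.integral_div]
  ring

theorem exists_annular {N : ℕ} (hN : 2 ≤ N) {σ : ℝ} (hσ : 0 < σ) (hσ1 : σ ≠ 1) :
    ∃ K r1 r2 t : ℝ, 1 < r1 ∧ r1 < r2 ∧ r2 < t ∧ q N K 1 * 1 = -(q N K t * t) ∧
      ∫ s in (1:ℝ)..t, prof N K 1 r1 r2 t σ s = 0 := by
  obtain ⟨n, rfl⟩ : ∃ n, N = n + 1 := ⟨N - 1, by omega⟩
  have hn : 1 ≤ n := by omega
  rcases lt_or_gt_of_ne hσ1 with h | h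
  · have hκ : 0 < 1 / σ - 1 := by
      rw [sub_pos, lt_div_iff₀ hσ]
      linarith
    obtain ⟨t, K, Q, δ, ht, hg, hQ, hδ, hδt, hi, h1, -⟩ := thin hn hκ
    have hc : ContinuousOn (fun r => ∫ s in r..(1 + δ), gg n K s) (Icc 1 (1 + δ)) := by
      have h3 : ContinuousOn (fun r => ∫ s in (1 + δ)..r, gg n K s) (Icc 1 (1 + δ)) := by
        have h4 := intervalIntegral.continuousOn_primitive_interval'
          (μ := volume) (f := gg n K) (a := 1 + δ) (b₁ := 1) (b₂ := 1 + δ)
          (integrable_gg n K one_pos (by linarith)) (by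
            rw [uIcc_of_le (by linarith)]
            exact ⟨by linarith, le_rfl⟩)
        rwa [uIcc_of_le (by linarith)] at h4
      refine h3.neg.congr fun r _ => ?_
      exact intervalIntegral.integral_symm _ _
    have hv : Q / (1 / σ - 1) ∈ Ioo (∫ s in (1 + δ)..(1 + δ), gg n K s)
        (∫ s in (1:ℝ)..(1 + δ), gg n K s) := by
      refine ⟨?_, ?_⟩
      · rw [intervalIntegral.integral_same]
        positivity
      · rw [div_lt_iff₀ hκ]
        linarith
    obtain ⟨r1, hr1, hr⟩ := intermediate_value_Ioo' (by linarith : (1:ℝ) ≤ 1 + δ) hc hv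
    refine ⟨K, r1, 1 + δ, t, hr1.1, hr1.2, by linarith, ?_, ?_⟩
    · rw [q_mul n K one_ne_zero, q_mul n K (by linarith), hg]
    · rw [prof_int n K one_pos hr1.1 hr1.2 (by linarith), hi]
      dsimp only at hr
      rw [hr]
      field_simp
      ring
  · have hκ : 0 < 1 - 1 / σ := by
      rw [sub_pos, div_lt_iff₀ hσ]
      linarith
    obtain ⟨t, K, Q, δ, ht, hg, hQ, hδ, hδt, hi, -, h1⟩ := thin hn hκ
    have hc : ContinuousOn (fun r => ∫ s in (t - δ)..r, -gg n K s) (Icc (t - δ) t) := by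
      have h4 := intervalIntegral.continuousOn_primitive_interval'
          (μ := volume) (f := fun s => -gg n K s) (a := t - δ) (b₁ := t - δ) (b₂ := t)
          (integrable_gg n K (by linarith) (by linarith)).neg (by
            rw [uIcc_of_le (by linarith)]
            exact ⟨le_rfl, by linarith⟩)
      rwa [uIcc_of_le (by linarith)] at h4
    have hv : Q / (1 - 1 / σ) ∈ Ioo (∫ s in (t - δ)..(t - δ), -gg n K s)
        (∫ s in (t - δ)..t, -gg n K s) := by
      refine ⟨?_, ?_⟩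
      · rw [intervalIntegral.integral_same]
        positivity
      · rw [div_lt_iff₀ hκ]
        linarith
    obtain ⟨r2, hr2, hr⟩ := intermediate_value_Ioo (by linarith : t - δ ≤ t) hc hv
    refine ⟨K, t - δ, r2, t, by linarith, hr2.1, hr2.2, ?_, ?_⟩
    · rw [q_mul n K one_ne_zero, q_mul n K (by linarith), hg]
    · rw [prof_int n K one_pos (by linarith) hr2.1 hr2.2, hi]
      dsimp only at hr
      rw [intervalIntegral.integral_neg] at hr
      have h3 : ∫ s in (t - δ)..r2, gg n K s = -(Q / (1 - 1 / σ)) := by linarith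
      rw [h3]
      have h4 : (1 / σ - 1) * -(Q / (1 - 1 / σ)) = Q := by
        have : (1 / σ - 1) = -(1 - 1 / σ) := by ring
        rw [this]
        field_simp
      rw [h4]
      ring

/-- In the plane the integral is explicit. -/
theorem gg_int (K : ℝ) {a b : ℝ} (ha : 0 < a) (hab : a < b) :
    ∫ t in a..b, gg 1 K t = K * Real.log (b / a) - (b ^ 2 - a ^ 2) / 4 := by
  have hb : 0 < b := ha.trans hab
  have h1 : ∀ t ∈ uIcc a b, HasDerivAt (fun s => K * Real.log s - s ^ 2 / 4) (gg 1 K t) t := by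
    intro t ht
    rw [uIcc_of_le hab.le] at ht
    have ht0 : 0 < t := ha.trans_le ht.1
    have h2 := ((Real.hasDerivAt_log ht0.ne').const_mul K).sub
      ((hasDerivAt_pow 2 t).div_const 4)
    refine h2.congr_deriv ?_
    unfold gg
    field_simp
    push_cast
    ring
  rw [intervalIntegral.integral_eq_sub_of_hasDerivAt h1 (integrable_gg 1 K ha hb),
    Real.log_div hb.ne' ha.ne']
  ring

theorem closure_ann_subset_ann {N : ℕ} {a b r1 r2 : ℝ} (h1 : a < r1) (h2 : r2 < b) :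
    closure (ann N r1 r2) ⊆ ann N a b := fun _ hx =>
  ⟨h1.trans_le (closure_ann_subset r1 r2 hx).1, (closure_ann_subset r1 r2 hx).2.trans_lt h2⟩

theorem closure_ann_subset_ball {N : ℕ} {b r1 r2 : ℝ} (h2 : r2 < b) :
    closure (ann N r1 r2) ⊆ Metric.ball 0 b := fun x hx => by
  rw [mem_ball_zero_iff]
  exact (closure_ann_subset r1 r2 hx).2.trans_lt h2

theorem isSolution_ball {N : ℕ} (hN : 2 ≤ N) {r1 r2 b σ : ℝ} (hσ : σ ≠ 0) (h1 : 0 < r1)
    (h12 : r1 < r2) (h2 : r2 < b) : IsSolution σ (ann N r1 r2) (Metric.ball (0 : Sp N) b) :=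
  ⟨isDomain_ann hN h1 h12, isDomain_ball (by omega) (h1.trans (h12.trans h2)),
    closure_ann_subset_ball h2, _, _, solves_ball (by omega) hσ h2 (h1.trans h12)⟩

theorem isSolution_ann {N : ℕ} (hN : 2 ≤ N) {K a r1 r2 b σ : ℝ} (hσ : σ ≠ 0) (ha : 0 < a)
    (h1 : a < r1) (h12 : r1 < r2) (h2 : r2 < b) (hg : q N K a * a = -(q N K b * b))
    (hint : ∫ t in a..b, prof N K a r1 r2 b σ t = 0) :
    IsSolution σ (ann N r1 r2) (ann N a b) :=
  ⟨isDomain_ann hN (ha.trans h1) h12, isDomain_ann hN ha (h1.trans (h12.trans h2)),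
    closure_ann_subset_ann h1 h2, _, _, solves_ann (by omega) hσ ha h1 h12 h2 hg hint⟩

theorem vol_ball {N : ℕ} (hN : N ≠ 0) {r : ℝ} (hr : 0 ≤ r) :
    volume (Metric.ball (0 : Sp N) r) =
      ENNReal.ofReal (r ^ N) * volume (Metric.ball (0 : Sp N) 1) := by
  have hNt : Nontrivial (Sp N) := by
    have : Nonempty (Fin N) := ⟨⟨0, Nat.pos_of_ne_zero hN⟩⟩
    infer_instance
  rw [Measure.addHaar_ball _ _ hr, finrank_euclideanSpace_fin]

theorem vol_ball_pos {N : ℕ} : 0 < volume (Metric.ball (0 : Sp N) 1) :=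
  Metric.measure_ball_pos _ _ one_pos

theorem vol_ball_lt_top {N : ℕ} : volume (Metric.ball (0 : Sp N) 1) ≠ ⊤ :=
  measure_ball_lt_top.ne

theorem measurableSet_ann {N : ℕ} (a b : ℝ) : MeasurableSet (ann N a b) :=
  (isOpen_ann a b).measurableSet

/-- The volume of an annulus is at most the difference of the volumes of the balls. -/
theorem vol_ann_add_le {N : ℕ} (hN : N ≠ 0) {a b : ℝ} (ha : 0 ≤ a) (hab : a ≤ b) :
    volume (ann N a b) + ENNReal.ofReal (a ^ N) * volume (Metric.ball (0 : Sp N) 1) ≤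
      ENNReal.ofReal (b ^ N) * volume (Metric.ball (0 : Sp N) 1) := by
  rw [← vol_ball hN ha, ← vol_ball hN (ha.trans hab),
    ← measure_union ?_ Metric.isOpen_ball.measurableSet]
  · refine measure_mono (union_subset (fun x hx => ?_) (Metric.ball_subset_ball hab))
    simpa using hx.2
  · rw [Set.disjoint_left]
    intro x h1 h2
    rw [mem_ball_zero_iff] at h2
    exact absurd h1.1 (not_lt.2 h2.le)

/-- The exact volume of an annulus. -/
theorem vol_ann {N : ℕ} (hN : N ≠ 0) {a b : ℝ} (ha : 0 < a) (hab : a < b) :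
    volume (ann N a b) = ENNReal.ofReal (b ^ N - a ^ N) * volume (Metric.ball (0 : Sp N) 1) := by
  have hNt : Nontrivial (Sp N) := by
    have : Nonempty (Fin N) := ⟨⟨0, Nat.pos_of_ne_zero hN⟩⟩
    infer_instance
  have h1 : ann N a b = Metric.ball (0 : Sp N) b \ Metric.closedBall 0 a := by
    ext x
    simp only [ann, mem_ofPred_eq, Set.mem_sdiff, mem_ball_zero_iff, mem_closedBall_zero_iff, not_le]
    exact and_comm
  have h2 : Metric.closedBall (0 : Sp N) a ⊆ Metric.ball 0 b := Metric.closedBall_subset_ball hab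
  have h3 : volume (Metric.closedBall (0 : Sp N) a) =
      ENNReal.ofReal (a ^ N) * volume (Metric.ball (0 : Sp N) 1) := by
    rw [Measure.addHaar_closedBall _ _ ha.le, finrank_euclideanSpace_fin]
  rw [h1, measure_sdiff h2 Metric.isClosed_closedBall.measurableSet.nullMeasurableSet
    (by rw [h3]; exact ENNReal.mul_ne_top ENNReal.ofReal_ne_top vol_ball_lt_top), h3,
    vol_ball hN (ha.trans hab).le, ENNReal.ofReal_sub _ (by positivity), ENNReal.sub_mul]
  intro _ _
  exact vol_ball_lt_top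

/-- The ordering fails in every dimension and for every coefficient. -/
theorem main_all {N : ℕ} (hN : 2 ≤ N) {σ : ℝ} (hσ : 0 < σ) (hσ1 : σ ≠ 1) :
    ∃ D Ω₁ Ω₂ : Set (Sp N), IsSolution σ D Ω₁ ∧ IsSolution σ D Ω₂ ∧ volume Ω₁ < volume Ω₂ ∧
      ¬ Ω₁ ⊆ Ω₂ := by
  obtain ⟨K, r1, r2, t, h1, h12, h2, hg, hint⟩ := exists_annular hN hσ hσ1
  have ht : 1 < t := h1.trans (h12.trans h2)
  have hN0 : N ≠ 0 := by omega
  -- the radius of the ball
  have hev : ∀ᶠ r in 𝓝[<] t, r2 < r ∧ t ^ N - 1 < r ^ N := by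
    have e1 : ∀ᶠ r in 𝓝 t, r2 < r := (isOpen_Ioi (a := r2)).mem_nhds h2
    have e2 : ∀ᶠ r in 𝓝 t, t ^ N - 1 < r ^ N := by
      have hc : ContinuousAt (fun r : ℝ => r ^ N) t := (continuous_pow N).continuousAt
      exact hc.eventually (isOpen_Ioi.mem_nhds (show t ^ N - 1 < t ^ N by linarith))
    exact (e1.and e2).filter_mono nhdsWithin_le_nhds
  obtain ⟨r, ⟨hr2, hrN⟩, hrt⟩ := (hev.and (self_mem_nhdsWithin)).exists
  have hrt' : r < t := hrt
  have hr0 : 0 < r := by linarith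
  refine ⟨ann N r1 r2, ann N 1 t, Metric.ball 0 r,
    isSolution_ann hN hσ.ne' one_pos h1 h12 h2 hg hint,
    isSolution_ball hN hσ.ne' (by linarith) h12 hr2, ?_, ?_⟩
  · rw [vol_ann hN0 one_pos ht, vol_ball hN0 hr0.le]
    refine ENNReal.mul_lt_mul_left vol_ball_pos.ne' vol_ball_lt_top ?_
    rw [one_pow]
    exact (ENNReal.ofReal_lt_ofReal_iff (by positivity)).2 hrN
  · intro hsub
    obtain ⟨e, he⟩ : ∃ e : Sp N, ‖e‖ = 1 := by
      have hNt : Nontrivial (Sp N) := by
        have : Nonempty (Fin N) := ⟨⟨0, Nat.pos_of_ne_zero hN0⟩⟩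
        infer_instance
      exact exists_norm_eq (Sp N) zero_le_one
    have hmem : ((r + t) / 2) • e ∈ ann N 1 t := by
      have h3 : ‖((r + t) / 2) • e‖ = (r + t) / 2 := by
        rw [norm_smul, he, mul_one, Real.norm_eq_abs, abs_of_pos (by linarith)]
      show 1 < ‖((r + t) / 2) • e‖ ∧ ‖((r + t) / 2) • e‖ < t
      rw [h3]
      constructor <;> linarith
    have h4 := hsub hmem
    rw [mem_ball_zero_iff, norm_smul, he, mul_one, Real.norm_eq_abs,
      abs_of_pos (by linarith)] at h4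
    linarith

/-- The plane: both solutions can be annuli. -/
theorem main_plane : ∃ (σ : ℝ) (a r1 r2 b a' b' : ℝ), 0 < σ ∧ σ < 1 ∧ 0 < a ∧ a < a' ∧ a' < r1 ∧
    r1 < r2 ∧ r2 < b ∧ b < b' ∧ IsSolution σ (ann 2 r1 r2) (ann 2 a b) ∧
      IsSolution σ (ann 2 r1 r2) (ann 2 a' b') ∧ volume (ann 2 a b) < volume (ann 2 a' b') := by
  obtain ⟨L, hL⟩ : ∃ L, L = Real.log 2 := ⟨_, rfl⟩
  have hL1 : 0.6931 < L := by rw [hL]; linarith [Real.log_two_gt_d9]
  have hL2 : L < 0.6932 := by rw [hL]; linarith [Real.log_two_lt_d9]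
  obtain ⟨X, hX⟩ : ∃ X, X = ((121 / 100 * (63 / 4 - 12 * L)) - (15 / 4 - 4 * L)) / (71 / 25) :=
    ⟨_, rfl⟩
  obtain ⟨Y, hY⟩ : ∃ Y, Y = 2 * X - (15 / 4 - 4 * L) := ⟨_, rfl⟩
  have hX1 : 2.8 < X := by rw [hX, lt_div_iff₀ (by norm_num)]; nlinarith
  have hX2 : X < 2.85 := by rw [hX, div_lt_iff₀ (by norm_num)]; nlinarith
  have hY1 : 4.6 < Y := by rw [hY]; nlinarith
  have hY2 : Y < 4.75 := by rw [hY]; nlinarith
  have hX0 : 0 < X := by linarith
  have hL0 : 0 < L := by linarith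
  obtain ⟨R, hR⟩ : ∃ R, R = 2 * Y * L / X := ⟨_, rfl⟩
  have hR1 : 2 < R := by rw [hR, lt_div_iff₀ hX0]; nlinarith
  have hR2 : R < 3 := by rw [hR, div_lt_iff₀ hX0]; nlinarith
  have hR0 : 0 < R := by linarith
  obtain ⟨σ, hσ⟩ : ∃ σ, σ = L / (L + 2 * X) := ⟨_, rfl⟩
  have hσ0 : 0 < σ := by rw [hσ]; positivity
  have hσ1 : σ < 1 := by rw [hσ, div_lt_one (by positivity)]; linarith
  have hσe : 1 / σ - 1 = 2 * X / L := by
    rw [hσ]
    field_simp
    ring
  have hr1 : 11 / 10 < √R := by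
    rw [Real.lt_sqrt (by norm_num)]
    linarith
  have h12 : √R < √(2 * R) := Real.sqrt_lt_sqrt hR0.le (by linarith)
  have h2 : √(2 * R) < 4 := by
    rw [Real.sqrt_lt' (by norm_num)]
    linarith
  have hlog : Real.log (√(2 * R) / √R) = L / 2 := by
    rw [← Real.sqrt_div' _ hR0.le, mul_div_cancel_right₀ _ hR0.ne', Real.log_sqrt (by norm_num), hL]
  have hcore : ∀ K : ℝ, (1 / σ - 1) * ∫ t in √R..√(2 * R), gg 1 K t = K * X - Y := by
    intro K
    rw [gg_int K (by positivity) h12, hlog, hσe, Real.sq_sqrt (by positivity),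
      Real.sq_sqrt (by positivity), hR]
    field_simp
    ring
  have hlog4 : Real.log 4 = 2 * L := by
    rw [show (4:ℝ) = 2 ^ 2 by norm_num, Real.log_pow, hL]
    norm_num
  have hlog8 : Real.log 8 = 3 * L := by
    rw [show (8:ℝ) = 2 ^ 3 by norm_num, Real.log_pow, hL]
    norm_num
  refine ⟨σ, 1, √R, √(2 * R), 4, 11 / 10, 44 / 5, hσ0, hσ1, one_pos, by norm_num, hr1, h12, h2,
    by norm_num, ?_, ?_, ?_⟩
  · refine isSolution_ann (K := 2) le_rfl hσ0.ne' one_pos (by linarith) h12 h2 ?_ ?_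
    · unfold q
      norm_num
    · rw [prof_int 1 2 one_pos (by linarith) h12 h2, hcore, gg_int 2 one_pos (by norm_num)]
      rw [show (4:ℝ) / 1 = 4 by norm_num, hlog4, hY]
      ring
  · refine isSolution_ann (K := 121 / 25) le_rfl hσ0.ne' (by norm_num) hr1 h12 (by linarith) ?_ ?_
    · unfold q
      norm_num
    · rw [prof_int 1 (121 / 25) (by norm_num) hr1 h12 (by linarith), hcore,
        gg_int (121 / 25) (by norm_num) (by norm_num)]
      rw [show (44 / 5 : ℝ) / (11 / 10) = 8 by norm_num, hlog8, hY]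
      have h3 : X * (71 / 25) = (121 / 100 * (63 / 4 - 12 * L)) - (15 / 4 - 4 * L) := by
        rw [hX]
        field_simp
      linarith
  · rw [vol_ann (by norm_num) one_pos (by norm_num), vol_ann (by norm_num) (by norm_num)
      (by norm_num)]
    refine ENNReal.mul_lt_mul_left vol_ball_pos.ne' vol_ball_lt_top ?_
    exact (ENNReal.ofReal_lt_ofReal_iff (by norm_num)).2 (by norm_num)

end Pool.Agent.Q61.TP
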